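import Pool.Agent.Helper79.UN.NGoals
import Pool.Agent.Helper79.UN.Lib

/-! # MP_57a173_lc, packet LGC -/

noncomputable section

namespace UN.PkLGC

open Pool.Agent.Helper97.Ku NU UL

variable {L : Type} [CompleteBooleanAlgebra L]

theorem iffV_le {a b c : L} (h1 : c ⊓ a ≤ b) (h2 : c ⊓ b ≤ a) : c ≤ iffV a b :=
  le_inf (le_himp_iff.mpr h1) (le_himp_iff.mpr h2)

theorem iffV_mp {a b : L} : iffV a b ⊓ a ≤ b := by
  unfold iffV
  exact (le_inf (inf_le_left.trans inf_le_left) inf_le_right).trans himp_inf_le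

theorem iffV_mpr {a b : L} : iffV a b ⊓ b ≤ a := by
  unfold iffV
  exact (le_inf (inf_le_left.trans inf_le_right) inf_le_right).trans himp_inf_le

theorem iffV_self (a : L) : iffV a a = ⊤ := by simp [iffV]

theorem iffV_ext {φ ψ : BSet L → L} (h : BSet.Ext φ)
    (k : BSet.Ext ψ) : BSet.Ext (fun x => iffV (φ x) (ψ x)) :=
  (h.himp k).inf (k.himp h)

theorem sub_cmp (cmp_ : U_CMP) (K : BSet L) (φ : BSet L → L) (h : BSet.Ext φ) :
    subV (cmp K φ) K = ⊤ := by
  rw [eq_top_iff]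
  refine le_iInf fun x => le_himp_iff.mpr ?_
  rw [(cmp_ L K).1 φ h x, top_inf_eq]
  exact inf_le_left

theorem iff_compl {a k m q : L} (h : a ≤ iffV m q) (hk : a ≤ k) : a ≤ iffV (k ⊓ mᶜ) qᶜ := by
  refine iffV_le ?_ ?_
  · rw [le_compl_iff_disjoint_right, disjoint_iff_inf_le]
    have h1 : a ⊓ (k ⊓ mᶜ) ⊓ q ≤ m := by
      refine le_trans ?_ (iffV_mpr (a := m) (b := q))
      exact inf_le_inf_right _ (inf_le_left.trans h)
    have h2 : a ⊓ (k ⊓ mᶜ) ⊓ q ≤ mᶜ := inf_le_left.trans (inf_le_right.trans inf_le_right)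
    exact (le_inf h1 h2).trans (by simp)
  · refine le_inf (inf_le_left.trans hk) ?_
    rw [le_compl_iff_disjoint_right, disjoint_iff_inf_le]
    have h1 : a ⊓ qᶜ ⊓ m ≤ q := by
      refine le_trans ?_ (iffV_mp (a := m) (b := q))
      exact inf_le_inf_right _ (inf_le_left.trans h)
    have h2 : a ⊓ qᶜ ⊓ m ≤ qᶜ := inf_le_left.trans inf_le_right
    exact (le_inf h1 h2).trans (by simp)

theorem lgc_pf (cmp_ : U_CMP) (dom : U_DOM) (ex2 : U_EX2) (mks : U_MKS) : U_LGC := by
  intro L _ J v K A hS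
  obtain ⟨ι, f, hf⟩ := dom L K
  obtain ⟨e1, -, -, -, e5, -, -, e8⟩ := ex2 L J v K A
  have hgen : ∀ n : ℕ, psC v K A (cmp K fun x => rl A x n) = ⊤ := by
    intro n
    rw [eq_top_iff]
    refine le_trans ?_ (le_iSup _ (PF.atom (Sum.inl n)))
    refine le_iInf fun x => le_himp_iff.mpr ?_
    rw [top_inf_eq, (cmp_ L K).1 _ (e1 n) x]
    change x.mem K ≤ iffV (x.mem K ⊓ rl A x n) (rl A x n)
    exact iffV_le (inf_le_right.trans inf_le_right) (le_of_eq rfl)
  refine ⟨?_, hgen⟩
  rw [eq_top_iff]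
  refine mks L K (psC v K A) ⊤ e8 ?_ ?_ ?_
  · refine le_trans ?_ (le_iSup _ (cmp K fun x => rl A x 0))
    rw [sub_cmp cmp_ K _ (e1 0), hgen 0, top_inf_eq]
  · intro Y
    refine (inf_le_right.trans inf_le_right).trans ?_
    refine iSup_le fun c => le_trans ?_ (le_iSup _ (PF.neg c))
    refine le_iInf fun x => le_himp_iff.mpr ?_
    have hx : BSet.Ext (fun x : BSet L => (x.mem Y)ᶜ) := (BSet.Ext.mem_left Y).compl
    rw [(cmp_ L K).1 _ hx x]
    change _ ≤ iffV (x.mem K ⊓ (x.mem Y)ᶜ) (bcV v A c x)ᶜ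
    refine iff_compl ?_ inf_le_right
    refine le_trans (inf_le_inf_right _ (iInf_le _ x)) ?_
    exact himp_inf_le
  · intro t
    rw [top_inf_eq]
    set U := cmp K (fun x => ⨆ n, x.mem (t n)) with hU
    have hxe : BSet.Ext (fun x : BSet L => ⨆ n, x.mem (t n)) :=
      BSet.Ext.iSup fun n => BSet.Ext.mem_left (t n)
    have hUm : ∀ x : BSet L, x.mem U = x.mem K ⊓ ⨆ n, x.mem (t n) := fun x =>
      (cmp_ L K).1 _ hxe x
    refine le_trans (iInf_mono fun n => inf_le_right) ?_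
    by_contra hc
    set V := ⨅ n, psC v K A (t n) with hV
    have hb : V ⊓ (psC v K A U)ᶜ ≠ ⊥ := by
      intro h
      apply hc
      have := le_compl_iff_disjoint_right.mpr (disjoint_iff_inf_le.mpr h.le)
      rwa [compl_compl] at this
    obtain ⟨b', h1, h2, c, h3⟩ := hS ι (fun i => (f i).mem K) (fun i => rl A (f i))
      (fun n i => (f i).mem (t n)) _ hb (by
        intro n
        refine inf_le_left.trans ((iInf_le _ n).trans ?_)
        refine iSup_mono fun c => ?_
        refine le_iInf fun i => ?_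
        exact iInf_le (fun x : BSet L => x.mem K ⇨ iffV (x.mem (t n)) (bcV v A c x)) (f i))
    apply h2
    have h4 : b' ≤ psC v K A U := by
      refine le_trans ?_ (le_iSup _ c)
      have hE : BSet.Ext (fun x : BSet L => iffV (x.mem U) (bcV v A c x)) :=
        iffV_ext (BSet.Ext.mem_left U) (e5 c)
      change b' ≤ ⨅ x : BSet L, (x.mem K ⇨ iffV (x.mem U) (bcV v A c x))
      rw [(hf _ hE).1]
      refine le_iInf fun i => le_himp_iff.mpr ?_
      rw [hUm]
      have h5 : b' ⊓ (f i).mem K ≤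
          iffV (⨆ n, (f i).mem (t n)) (c.ev (Sum.elim (rl A (f i)) v)) := by
        refine le_trans (inf_le_inf_right _ (h3.trans (iInf_le _ i))) ?_
        exact himp_inf_le
      refine iffV_le ?_ ?_
      · refine le_trans (le_inf (inf_le_left.trans h5) (inf_le_right.trans inf_le_right)) ?_
        exact iffV_mp
      · refine le_inf (inf_le_left.trans inf_le_right) ?_
        refine le_trans (le_inf (inf_le_left.trans h5) inf_le_right) ?_
        exact iffV_mpr
    have h5 : b' ≤ (psC v K A U)ᶜ := h1.trans inf_le_right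
    exact le_bot_iff.mp ((le_inf h4 h5).trans (by simp))

end UN.PkLGC
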